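import Pool.Agent.H12.SQM.Defs

/-!
# [SQM FAC] Real binary cubic forms (complete)

A real form of positive discriminant is `-ℓ₁ ℓ₂ (ℓ₁ + ℓ₂) / δ` with real linear forms (`fac_pos`), a real form of negative discriminant is `ℓ₁³ + ℓ₂³` (`fac_neg`).
-/

set_option autoImplicit false

open H77.MF

noncomputable section

namespace H12.SQM

private theorem root1 (p q r : ℝ) : ∃ t : ℝ, t ^ 3 + p * t ^ 2 + q * t + r = 0 := by
  have hc : Continuous fun t : ℝ => t ^ 3 + p * t ^ 2 + q * t + r := by fun_prop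
  obtain ⟨M, hM⟩ : ∃ M, M = 1 + |p| + |q| + |r| := ⟨_, rfl⟩
  have p0 := abs_nonneg p
  have q0 := abs_nonneg q
  have r0 := abs_nonneg r
  have hM1 : 1 ≤ M := by rw [hM]; linarith
  have hM2 : 1 ≤ M ^ 2 := one_le_pow₀ hM1
  have hM3 : M ≤ M ^ 2 := by nlinarith
  have k : M ^ 3 = M ^ 2 + |p| * M ^ 2 + |q| * M ^ 2 + |r| * M ^ 2 := by
    have : M ^ 3 = M * M ^ 2 := by ring
    rw [this]
    nth_rewrite 1 [hM]
    ring
  have b1 : |q| * M ≤ |q| * M ^ 2 := mul_le_mul_of_nonneg_left hM3 q0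
  have b2 : |r| * 1 ≤ |r| * M ^ 2 := mul_le_mul_of_nonneg_left hM2 r0
  have c1 : |p * M ^ 2| = |p| * M ^ 2 := by rw [abs_mul, abs_of_nonneg (by positivity : (0:ℝ) ≤ M ^ 2)]
  have c2 : |q * M| = |q| * M := by rw [abs_mul, abs_of_nonneg (by linarith : (0:ℝ) ≤ M)]
  have d1 := neg_abs_le (p * M ^ 2)
  have d2 := neg_abs_le (q * M)
  have d3 := neg_abs_le r
  have d4 := le_abs_self (p * M ^ 2)
  have d5 := neg_abs_le (q * M)
  have d6 := le_abs_self r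
  rw [c1] at d1 d4
  rw [c2] at d2 d5
  have h1 : ∃ t : ℝ, t ^ 3 + p * t ^ 2 + q * t + r ≤ 0 := by
    refine ⟨-M, ?_⟩
    have e : (-M) ^ 3 + p * (-M) ^ 2 + q * (-M) + r = -M ^ 3 + p * M ^ 2 - q * M + r := by ring
    rw [e, k]
    linarith
  have h2 : ∃ t : ℝ, 0 ≤ t ^ 3 + p * t ^ 2 + q * t + r := by
    refine ⟨M, ?_⟩
    rw [k]
    linarith
  obtain ⟨t, ht⟩ := mem_range_of_exists_le_of_exists_ge hc h1 h2
  exact ⟨t, ht⟩

/-- a real cubic has a real root -/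
private theorem root3 (a b c e : ℝ) (ha : a ≠ 0) : ∃ t : ℝ, a * t ^ 3 + b * t ^ 2 + c * t + e = 0 := by
  obtain ⟨t, ht⟩ := root1 (b / a) (c / a) (e / a)
  refine ⟨t, ?_⟩
  have h : a * (t ^ 3 + b / a * t ^ 2 + c / a * t + e / a) = a * t ^ 3 + b * t ^ 2 + c * t + e := by
    field_simp
  rw [← h, ht, mul_zero]

/-- the cube root -/
private theorem cbrt (x : ℝ) : ∃ y : ℝ, y ^ 3 = x := by
  obtain ⟨t, ht⟩ := root3 1 0 0 (-x) one_ne_zero
  exact ⟨t, by linarith⟩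

theorem fac_pos {f : Fin 4 → ℝ} (hf : 0 < disc f) : ∃ l m : Fin 2 → ℝ, disc f = dt l m ^ 2 ∧
    (∀ v : Fin 2 → ℝ, ev f v * dt l m = -((l 0 * v 0 + l 1 * v 1) * (m 0 * v 0 + m 1 * v 1) *
      ((l 0 * v 0 + l 1 * v 1) + (m 0 * v 0 + m 1 * v 1)))) ∧
    ∀ v : Fin 2 → ℝ, hes f v = (l 0 * v 0 + l 1 * v 1) ^ 2 +
      (l 0 * v 0 + l 1 * v 1) * (m 0 * v 0 + m 1 * v 1) + (m 0 * v 0 + m 1 * v 1) ^ 2 := by
  by_cases ha : f 0 = 0
  · have hb : f 1 ≠ 0 := by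
      intro hb
      simp [disc, ha, hb] at hf
    have h1 : disc f = f 1 ^ 2 * (f 2 ^ 2 - 4 * f 1 * f 3) := by
      simp only [disc, ha]
      ring
    have h2 : 0 < f 2 ^ 2 - 4 * f 1 * f 3 := by
      by_contra h
      push Not at h
      have h3 : f 1 ^ 2 * (f 2 ^ 2 - 4 * f 1 * f 3) ≤ 0 :=
        mul_nonpos_of_nonneg_of_nonpos (sq_nonneg _) h
      rw [← h1] at h3
      linarith
    obtain ⟨s, hs⟩ : ∃ s : ℝ, s ^ 2 = f 2 ^ 2 - 4 * f 1 * f 3 := ⟨_, Real.sq_sqrt h2.le⟩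
    obtain ⟨r1, hr1⟩ : ∃ r1 : ℝ, r1 = (-f 2 + s) / (2 * f 1) := ⟨_, rfl⟩
    obtain ⟨r2, hr2⟩ : ∃ r2 : ℝ, r2 = (-f 2 - s) / (2 * f 1) := ⟨_, rfl⟩
    have hc : f 2 = -(f 1 * (r1 + r2)) := by
      rw [hr1, hr2]
      field_simp
      ring
    have hd : f 3 = f 1 * (r1 * r2) := by
      have h1 : f 1 * (r1 * r2) = (f 2 ^ 2 - s ^ 2) / (4 * f 1) := by
        rw [hr1, hr2]
        field_simp
        ring
      rw [h1, hs]
      field_simp
      ring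
    refine ⟨![0, f 1 * (r1 - r2)], ![f 1, -(f 1 * r1)], ?_, ?_, ?_⟩
    · simp only [disc, dt, ha, hc, hd, Matrix.cons_val_zero, Matrix.cons_val_one]
      ring
    · intro v
      simp only [ev, dt, ha, hc, hd, Matrix.cons_val_zero, Matrix.cons_val_one]
      ring
    · intro v
      simp only [hes, hA, hC, ha, hc, hd, Matrix.cons_val_zero, Matrix.cons_val_one]
      ring
  · obtain ⟨r, hr⟩ := root3 (f 0) (f 1) (f 2) (f 3) ha
    obtain ⟨B, hB⟩ : ∃ B : ℝ, B = f 1 + f 0 * r := ⟨_, rfl⟩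
    obtain ⟨C, hC'⟩ : ∃ C : ℝ, C = f 2 + B * r := ⟨_, rfl⟩
    have e1 : f 1 = B - f 0 * r := by rw [hB]; ring
    have e2 : f 2 = C - B * r := by rw [hC']; ring
    have e3 : f 3 = -(C * r) := by
      rw [hC', hB]
      linarith
    have h1 : disc f = (f 0 * r ^ 2 + B * r + C) ^ 2 * (B ^ 2 - 4 * f 0 * C) := by
      simp only [disc, e1, e2, e3]
      ring
    have h2 : 0 < B ^ 2 - 4 * f 0 * C := by
      by_contra h
      push Not at h
      have h3 : (f 0 * r ^ 2 + B * r + C) ^ 2 * (B ^ 2 - 4 * f 0 * C) ≤ 0 :=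
        mul_nonpos_of_nonneg_of_nonpos (sq_nonneg _) h
      rw [← h1] at h3
      linarith
    obtain ⟨s, hs⟩ : ∃ s : ℝ, s ^ 2 = B ^ 2 - 4 * f 0 * C := ⟨_, Real.sq_sqrt h2.le⟩
    obtain ⟨r2, hr2⟩ : ∃ r2 : ℝ, r2 = (-B + s) / (2 * f 0) := ⟨_, rfl⟩
    obtain ⟨r3, hr3⟩ : ∃ r3 : ℝ, r3 = (-B - s) / (2 * f 0) := ⟨_, rfl⟩
    have g1 : B = -(f 0 * (r2 + r3)) := by
      rw [hr2, hr3]
      field_simp
      ring
    have g2 : C = f 0 * (r2 * r3) := by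
      have h1 : f 0 * (r2 * r3) = (B ^ 2 - s ^ 2) / (4 * f 0) := by
        rw [hr2, hr3]
        field_simp
        ring
      rw [h1, hs]
      field_simp
      ring
    have hb : f 1 = f 0 * -(r + r2 + r3) := by
      rw [e1, g1]
      ring
    have hc : f 2 = f 0 * (r * r2 + r * r3 + r2 * r3) := by
      rw [e2, g2, g1]
      ring
    have hd : f 3 = f 0 * -(r * r2 * r3) := by
      rw [e3, g2]
      ring
    refine ⟨![f 0 * (r2 - r3), -(f 0 * (r2 - r3) * r)], ![f 0 * (r3 - r), -(f 0 * (r3 - r) * r2)],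
      ?_, ?_, ?_⟩
    · simp only [disc, dt, hb, hc, hd, Matrix.cons_val_zero, Matrix.cons_val_one]
      ring
    · intro v
      simp only [ev, dt, hb, hc, hd, Matrix.cons_val_zero, Matrix.cons_val_one]
      ring
    · intro v
      simp only [hes, hA, hC, hb, hc, hd, Matrix.cons_val_zero, Matrix.cons_val_one]
      ring

/-- the coefficients -/
private theorem neg_co {f : Fin 4 → ℝ} (hf : disc f < 0) : ∃ l m : Fin 2 → ℝ,
    f 0 = l 0 ^ 3 + m 0 ^ 3 ∧ f 1 = 3 * (l 0 ^ 2 * l 1 + m 0 ^ 2 * m 1) ∧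
    f 2 = 3 * (l 0 * l 1 ^ 2 + m 0 * m 1 ^ 2) ∧ f 3 = l 1 ^ 3 + m 1 ^ 3 := by
  obtain ⟨a, ha⟩ : ∃ a, a = f 0 := ⟨_, rfl⟩
  obtain ⟨b, hb⟩ : ∃ b, b = f 1 := ⟨_, rfl⟩
  obtain ⟨c, hc⟩ : ∃ c, c = f 2 := ⟨_, rfl⟩
  obtain ⟨e, he⟩ : ∃ e, e = f 3 := ⟨_, rfl⟩
  obtain ⟨A, hA⟩ : ∃ A, A = b ^ 2 - 3 * a * c := ⟨_, rfl⟩
  obtain ⟨B, hB⟩ : ∃ B, B = b * c - 9 * a * e := ⟨_, rfl⟩
  obtain ⟨C, hC⟩ : ∃ C, C = c ^ 2 - 3 * b * e := ⟨_, rfl⟩
  have hD : B ^ 2 - 4 * A * C = -3 * disc f := by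
    rw [hA, hB, hC, disc, ← ha, ← hb, ← hc, ← he]
    ring
  have hD0 : 0 < B ^ 2 - 4 * A * C := by
    rw [hD]
    linarith
  obtain ⟨s, hs0, hs⟩ : ∃ s : ℝ, 0 < s ∧ s ^ 2 = B ^ 2 - 4 * A * C :=
    ⟨_, Real.sqrt_pos.2 hD0, Real.sq_sqrt hD0.le⟩
  -- the relations of the covariants
  have k1 : B * b - 3 * C * a = A * c := by
    rw [hA, hB, hC]
    ring
  have k2 : B * c - C * b = 3 * A * e := by
    rw [hA, hB, hC]
    ring
  rw [← ha, ← hb, ← hc, ← he]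
  by_cases hA0 : A = 0
  · have hB0 : B ≠ 0 := by
      intro h0
      rw [hA0, h0] at hD0
      norm_num at hD0
    rw [hA0] at k1 k2
    obtain ⟨q, hq⟩ := cbrt (a / B ^ 3)
    obtain ⟨p, hp⟩ := cbrt (e - a / B ^ 3 * C ^ 3)
    refine ⟨![0, p], ![q * B, q * C], ?_, ?_, ?_, ?_⟩
    · simp only [Matrix.cons_val_zero]
      have h1 : (0 : ℝ) ^ 3 + (q * B) ^ 3 = q ^ 3 * B ^ 3 := by ring
      rw [h1, hq]
      field_simp
    · simp only [Matrix.cons_val_zero, Matrix.cons_val_one]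
      have h1 : 3 * ((0 : ℝ) ^ 2 * p + (q * B) ^ 2 * (q * C)) = 3 * q ^ 3 * B ^ 2 * C := by ring
      rw [h1, hq]
      field_simp
      linarith
    · simp only [Matrix.cons_val_zero, Matrix.cons_val_one]
      have h1 : 3 * ((0 : ℝ) * p ^ 2 + (q * B) * (q * C) ^ 2) = 3 * q ^ 3 * B * C ^ 2 := by ring
      rw [h1, hq]
      field_simp
      have h2 : c * B = b * C := by linarith
      have h3 : b * B = 3 * a * C := by linarith
      calc c * B ^ 2 = c * B * B := by ring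
        _ = b * B * C := by rw [h2]; ring
        _ = _ := by rw [h3]; ring
    · simp only [Matrix.cons_val_zero, Matrix.cons_val_one]
      have h1 : p ^ 3 + (q * C) ^ 3 = p ^ 3 + q ^ 3 * C ^ 3 := by ring
      rw [h1, hq, hp]
      ring
  · obtain ⟨t, ht⟩ : ∃ t, t = (-B + s) / (2 * A) := ⟨_, rfl⟩
    obtain ⟨u, hu⟩ : ∃ u, u = (-B - s) / (2 * A) := ⟨_, rfl⟩
    have t1 : A * t ^ 2 + B * t + C = 0 := by
      have h1 : A * t ^ 2 + B * t + C = (s ^ 2 - (B ^ 2 - 4 * A * C)) / (4 * A) := by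
        rw [ht]
        field_simp
        ring
      rw [h1, hs]
      simp
    have u1 : A * u ^ 2 + B * u + C = 0 := by
      have h1 : A * u ^ 2 + B * u + C = (s ^ 2 - (B ^ 2 - 4 * A * C)) / (4 * A) := by
        rw [hu]
        field_simp
        ring
      rw [h1, hs]
      simp
    have htu : t - u = s / A := by
      rw [ht, hu]
      field_simp
      ring
    have htu0 : t - u ≠ 0 := by
      rw [htu]
      exact div_ne_zero hs0.ne' hA0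
    obtain ⟨α, hα⟩ : ∃ α, α = (-b / 3 - a * u) / (t - u) := ⟨_, rfl⟩
    obtain ⟨β, hβ⟩ : ∃ β, β = a - α := ⟨_, rfl⟩
    have m0 : α + β = a := by rw [hβ]; ring
    have m1 : α * t + β * u = -b / 3 := by
      have h1 : α * (t - u) = -b / 3 - a * u := by
        rw [hα]
        field_simp
      rw [hβ]
      linear_combination h1
    have m2 : α * t ^ 2 + β * u ^ 2 = c / 3 := by
      apply mul_left_cancel₀ hA0
      linear_combination α * t1 + β * u1 - B * m1 - C * m0 + k1 / 3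
    have m3 : α * t ^ 3 + β * u ^ 3 = -e := by
      apply mul_left_cancel₀ hA0
      linear_combination α * t * t1 + β * u * u1 - B * m2 - C * m1 - k2 / 3
    obtain ⟨p, hp⟩ := cbrt α
    obtain ⟨q, hq⟩ := cbrt β
    refine ⟨![p, -(p * t)], ![q, -(q * u)], ?_, ?_, ?_, ?_⟩
    · simp only [Matrix.cons_val_zero]
      rw [hp, hq]
      exact m0.symm
    · simp only [Matrix.cons_val_zero, Matrix.cons_val_one]
      have h1 : 3 * (p ^ 2 * -(p * t) + q ^ 2 * -(q * u)) = -3 * (p ^ 3 * t + q ^ 3 * u) := by ring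
      rw [h1, hp, hq, m1]
      ring
    · simp only [Matrix.cons_val_zero, Matrix.cons_val_one]
      have h1 : 3 * (p * (-(p * t)) ^ 2 + q * (-(q * u)) ^ 2) = 3 * (p ^ 3 * t ^ 2 + q ^ 3 * u ^ 2) := by
        ring
      rw [h1, hp, hq, m2]
      ring
    · simp only [Matrix.cons_val_zero, Matrix.cons_val_one]
      have h1 : (-(p * t)) ^ 3 + (-(q * u)) ^ 3 = -(p ^ 3 * t ^ 3 + q ^ 3 * u ^ 3) := by ring
      rw [h1, hp, hq, m3]
      ring

theorem fac_neg {f : Fin 4 → ℝ} (hf : disc f < 0) : ∃ l m : Fin 2 → ℝ, disc f = -27 * dt l m ^ 6 ∧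
    (∀ v : Fin 2 → ℝ, ev f v = (l 0 * v 0 + l 1 * v 1) ^ 3 + (m 0 * v 0 + m 1 * v 1) ^ 3) ∧
    ∀ v : Fin 2 → ℝ, hes f v = -9 * dt l m ^ 2 * ((l 0 * v 0 + l 1 * v 1) * (m 0 * v 0 + m 1 * v 1)) := by
  obtain ⟨l, m, h0, h1, h2, h3⟩ := neg_co hf
  refine ⟨l, m, ?_, ?_, ?_⟩
  · simp only [disc, dt, h0, h1, h2, h3]
    ring
  · intro v
    simp only [ev, h0, h1, h2, h3]
    ring
  · intro v
    simp only [hes, hA, hC, dt, h0, h1, h2, h3]
    ring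

end H12.SQM
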